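import Mathlib

/-!
Analytic Menger-bounded groups are countable unions of totally bounded sets: the combinatorial core.
-/

namespace Pool.Agent.H.MP_913206_gt

open Filter Topology Pointwise

universe u

/-- a decreasing symmetric base at the identity -/
structure Base (G : Type u) [Group G] [TopologicalSpace G] where
  U : ℕ → Set G
  opn : ∀ n, IsOpen (U n)
  one : ∀ n, 1 ∈ U n
  inv : ∀ n x, x ∈ U n → x⁻¹ ∈ U n
  mul : ∀ n x y, x ∈ U (n + 1) → y ∈ U (n + 1) → x * y ∈ U n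
  sub : ∀ V ∈ 𝓝 (1 : G), ∃ n, U n ⊆ V

section
variable {G : Type u} [Group G] [TopologicalSpace G]

theorem exists_base [IsTopologicalGroup G] [FirstCountableTopology G] : Nonempty (Base G) := by
  obtain ⟨u, hu, hm⟩ := IsTopologicalGroup.exists_antitone_basis_nhds_one G
  have h1 : ∀ n, (1 : G) ∈ interior (u n) := fun n =>
    mem_interior_iff_mem_nhds.2 (hu.mem n)
  have key : ∀ n x y, x ∈ interior (u (n + 1)) → y ∈ interior (u (n + 1)) →
      x * y ∈ interior (u n) := by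
    intro n x y hx hy
    have ho : IsOpen (interior (u (n + 1)) * interior (u (n + 1))) := isOpen_interior.mul_left
    have hs : interior (u (n + 1)) * interior (u (n + 1)) ⊆ u n :=
      (Set.mul_subset_mul interior_subset interior_subset).trans (hm n)
    exact interior_maximal hs ho (Set.mul_mem_mul hx hy)
  refine ⟨⟨fun n => {x | x ∈ interior (u n) ∧ x⁻¹ ∈ interior (u n)}, fun n => ?_, fun n => ?_,
    fun n x hx => ?_, fun n x y hx hy => ?_, fun V hV => ?_⟩⟩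
  · exact isOpen_interior.inter (isOpen_interior.preimage continuous_inv)
  · exact ⟨h1 n, by simpa using h1 n⟩
  · exact ⟨hx.2, by simpa using hx.1⟩
  · exact ⟨key n _ _ hx.1 hy.1, by rw [mul_inv_rev]; exact key n _ _ hy.2 hx.2⟩
  · obtain ⟨n, -, hn⟩ := hu.toHasBasis.mem_iff.1 hV
    exact ⟨n, fun x hx => hn (interior_subset hx.1)⟩

namespace Base
variable (B : Base G)

theorem nhds (n : ℕ) : B.U n ∈ 𝓝 (1 : G) := (B.opn n).mem_nhds (B.one n)

theorem succ {n : ℕ} {x : G} (h : x ∈ B.U (n + 1)) : x ∈ B.U n := by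
  simpa using B.mul n x 1 h (B.one _)

theorem anti {m n : ℕ} (h : m ≤ n) {x : G} (hx : x ∈ B.U n) : x ∈ B.U m := by
  induction h with
  | refl => exact hx
  | step _ ih => exact ih (B.succ hx)

theorem mul3 {n : ℕ} {x y z : G} (hx : x ∈ B.U (n + 2)) (hy : y ∈ B.U (n + 2))
    (hz : z ∈ B.U (n + 2)) : x * y * z ∈ B.U n :=
  B.mul n _ _ (B.mul _ _ _ hx hy) (B.succ hz)

theorem div {n : ℕ} {e x y : G} (hx : e⁻¹ * x ∈ B.U (n + 1)) (hy : e⁻¹ * y ∈ B.U (n + 1)) :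
    x⁻¹ * y ∈ B.U n := by
  have := B.mul n _ _ (B.inv _ _ hx) hy
  simpa [mul_assoc] using this

theorem conj [IsTopologicalGroup G] (g : G) (n : ℕ) :
    ∃ k, ∀ u ∈ B.U k, g * u * g⁻¹ ∈ B.U n := by
  have hc : ContinuousAt (fun u : G => g * u * g⁻¹) 1 := by fun_prop
  have := hc.preimage_mem_nhds (t := B.U n) (by simpa using B.nhds n)
  obtain ⟨k, hk⟩ := B.sub _ this
  exact ⟨k, fun u hu => hk hu⟩

/-- the filter escapes every left translate of `U n` -/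
def Esc (Γ : Filter G) (n : ℕ) : Prop := ∀ e : G, ∀ᶠ g in Γ, e⁻¹ * g ∉ B.U n

/-- the points avoiding the sets `F i * U i` on a range of levels -/
def Av (F : ℕ → Finset G) (lo K : ℕ) (g : G) : Prop :=
  ∀ i, lo ≤ i → i ≤ K → ∀ f ∈ F i, f⁻¹ * g ∉ B.U i

theorem Esc.av {B : Base G} {Γ : Filter G} {n : ℕ} (h : B.Esc Γ n) (F : ℕ → Finset G) (K : ℕ) :
    ∀ᶠ g in Γ, B.Av F n K g := by
  have : ∀ᶠ g in Γ, ∀ i ∈ Finset.range (K + 1), ∀ f ∈ F i, f⁻¹ * g ∉ B.U n := by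
    rw [eventually_all_finset]
    intro i _
    rw [eventually_all_finset]
    intro f _
    exact h f
  filter_upwards [this] with g hg i h1 h2 f hf hm
  exact hg i (Finset.mem_range.2 (by omega)) f hf (B.anti h1 hm)

theorem Av.trans {B : Base G} {F : ℕ → Finset G} {a b c : ℕ} {g : G} (h1 : B.Av F a b g)
    (h2 : B.Av F b c g) : B.Av F a c g := by
  intro i hi hi' f hf
  by_cases h : i ≤ b
  · exact h1 i hi h f hf
  · exact h2 i (by omega) hi' f hf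

theorem esc_bind {c : ℕ → G} {n : ℕ} {𝒰 : Filter ℕ} (h : ∀ e : G, ∀ᶠ m in 𝒰, e⁻¹ * c m ∉ B.U n)
    (Γ : ℕ → Filter G) (hΓ : ∀ m, ∀ᶠ g in Γ m, (c m)⁻¹ * g ∈ B.U (n + 1)) :
    B.Esc (𝒰.bind Γ) (n + 1) := by
  intro e
  rw [eventually_bind]
  filter_upwards [h e] with m hm
  filter_upwards [hΓ m] with g hg hg'
  apply hm
  have := B.mul n _ _ hg' (B.inv _ _ hg)
  simpa [mul_assoc] using this

theorem final {S : Type} (P : S → Set G) (rel : S → S → Prop) (Γ : S → Filter G)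
    (F : ℕ → Finset G)
    (hlim : ∀ σ : ℕ → S, (∀ k, rel (σ k) (σ (k + 1))) → ∃ g, ∀ k, g ∈ P (σ k))
    (step : ∀ σ lo, (∀ K, ∀ᶠ g in Γ σ, B.Av F lo K g) → ∃ n σ' c, lo ≤ n ∧ rel σ σ' ∧
      B.Av F lo n c ∧ (∀ g ∈ P σ', c⁻¹ * g ∈ B.U (n + 1)) ∧
      ∀ K, ∀ᶠ g in Γ σ', B.Av F (n + 1) K g)
    (σ0 : S) (lo0 : ℕ) (h0 : ∀ K, ∀ᶠ g in Γ σ0, B.Av F lo0 K g) :
    ∃ g, ∀ i, lo0 ≤ i → ∀ f ∈ F i, f⁻¹ * g ∉ B.U (i + 1) := by
  let T := {p : S × ℕ // ∀ K, ∀ᶠ g in Γ p.1, B.Av F p.2 K g}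
  have st : ∀ p : T, ∃ q : T, p.1.2 < q.1.2 ∧ rel p.1.1 q.1.1 ∧
      ∀ g ∈ P q.1.1, ∀ i, p.1.2 ≤ i → i < q.1.2 → ∀ f ∈ F i, f⁻¹ * g ∉ B.U (i + 1) := by
    rintro ⟨⟨σ, lo⟩, hp⟩
    obtain ⟨n, σ', c, h1, h2, h3, h4, h5⟩ := step σ lo hp
    refine ⟨⟨(σ', n + 1), h5⟩, Nat.lt_succ_of_le h1, h2, fun g hg i hi hi' f hf hm => ?_⟩
    have hi2 : i ≤ n := Nat.lt_succ_iff.1 hi'
    apply h3 i hi hi2 f hf
    have := B.mul i _ _ hm (B.inv _ _ (B.anti (Nat.succ_le_succ hi2) (h4 g hg)))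
    simpa [mul_assoc] using this
  choose nx h1 h2 h3 using st
  let p : ℕ → T := fun k => nx^[k] ⟨(σ0, lo0), h0⟩
  have ps : ∀ k, p (k + 1) = nx (p k) := fun k => Function.iterate_succ_apply' _ _ _
  obtain ⟨g, hg⟩ := hlim (fun k => (p k).1.1) (fun k => by rw [ps]; exact h2 _)
  refine ⟨g, fun i hi => ?_⟩
  have all : ∀ k, ∀ i, lo0 ≤ i → i < (p k).1.2 → ∀ f ∈ F i, f⁻¹ * g ∉ B.U (i + 1) := by
    intro k
    induction k with
    | zero => intro i h h'; exact absurd h' (not_lt.2 h)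
    | succ k ih =>
      intro i h h'
      by_cases h'' : i < (p k).1.2
      · exact ih i h h''
      · have hk := hg (k + 1)
        rw [ps] at h' hk
        exact h3 (p k) g hk i (not_lt.1 h'') h'
  have grow : ∀ k, k ≤ (p k).1.2 := by
    intro k
    induction k with
    | zero => exact Nat.zero_le _
    | succ k ih => rw [ps]; exact Nat.succ_le_of_lt (ih.trans_lt (h1 _))
  exact all (i + 1) i hi (grow (i + 1))

end Base

/-- the fixed free ultrafilter -/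
noncomputable abbrev 𝒰 : Ultrafilter ℕ := hyperfilter ℕ

/-- a complete tree of points with escaping families of successors -/
structure Tr (B : Base G) where
  X : Type
  f : X → G
  ag : ℕ → X → X → Prop
  refl : ∀ n a, ag n a a
  trans : ∀ n a b c, ag n a b → ag n b c → ag n a c
  mono : ∀ m n a b, m ≤ n → ag n a b → ag m a b
  cont : ∀ a, ∀ V ∈ 𝓝 (f a), ∃ n, ∀ b, ag n a b → f b ∈ V
  lim : ∀ (a : ℕ → X) (n : ℕ → ℕ), (∀ k, n k < n (k + 1)) → (∀ k, ag (n k) (a k) (a (k + 1))) →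
    ∃ b, ∀ k, ag (n k) (a k) b
  ch : X × ℕ → ℕ → X
  ch_ag : ∀ p m, ag p.2 p.1 (ch p m)
  lev : X × ℕ → ℕ
  esc : ∀ p (e : G), ∀ᶠ m in (𝒰 : Filter ℕ), e⁻¹ * f (ch p m) ∉ B.U (lev p)
  pt : X

namespace Tr
variable {B : Base G} (T : Tr B)

/-- extension of nodes -/
def Le (p q : T.X × ℕ) : Prop := p.2 ≤ q.2 ∧ T.ag p.2 p.1 q.1

/-- proper extension of nodes -/
def Lt (p q : T.X × ℕ) : Prop := p.2 < q.2 ∧ T.ag p.2 p.1 q.1

/-- points of a node -/
def In (p : T.X × ℕ) (b : T.X) : Prop := T.ag p.2 p.1 b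

/-- the successors of a node, as group elements -/
def c (p : T.X × ℕ) (m : ℕ) : G := T.f (T.ch p m)

variable {T}

theorem Le.rfl (p : T.X × ℕ) : T.Le p p := ⟨le_rfl, T.refl _ _⟩

theorem Le.trans {p q r : T.X × ℕ} (h1 : T.Le p q) (h2 : T.Le q r) : T.Le p r :=
  ⟨h1.1.trans h2.1, T.trans _ _ _ _ h1.2 (T.mono _ _ _ _ h1.1 h2.2)⟩

theorem Lt.le {p q : T.X × ℕ} (h : T.Lt p q) : T.Le p q := ⟨h.1.le, h.2⟩

theorem Lt.trans_le {p q r : T.X × ℕ} (h1 : T.Lt p q) (h2 : T.Le q r) : T.Lt p r :=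
  ⟨h1.1.trans_le h2.1, (h1.le.trans h2).2⟩

theorem Le.mem {p q : T.X × ℕ} (h : T.Le p q) {b : T.X} (hb : T.In q b) : T.In p b :=
  T.trans _ _ _ _ h.2 (T.mono _ _ _ _ h.1 hb)

theorem in_ch (p : T.X × ℕ) (m : ℕ) : T.In p (T.ch p m) := T.ch_ag p m

theorem lim' (p : ℕ → T.X × ℕ) (h : ∀ k, T.Lt (p k) (p (k + 1))) : ∃ b, ∀ k, T.In (p k) b :=
  T.lim (fun k => (p k).1) (fun k => (p k).2) (fun k => (h k).1) (fun k => (h k).2)

variable [IsTopologicalGroup G]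

theorem near (a : T.X) (p q : G) (h : p * T.f a * q = 1) (n : ℕ) :
    ∃ k, ∀ b, T.ag k a b → p * T.f b * q ∈ B.U n := by
  have hc : ContinuousAt (fun u : G => p * u * q) (T.f a) := by fun_prop
  have := hc.preimage_mem_nhds (t := B.U n) (by simpa [h] using B.nhds n)
  exact T.cont a _ this

theorem near_ch (r : T.X × ℕ) (m : ℕ) (p q : G) (h : p * T.c r m * q = 1) (n : ℕ) :
    ∃ r', T.Lt r r' ∧ ∀ b, T.In r' b → p * T.f b * q ∈ B.U n := by
  obtain ⟨k, hk⟩ := near (T.ch r m) p q h n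
  exact ⟨(T.ch r m, max k (r.2 + 1)), ⟨lt_max_of_lt_right (Nat.lt_succ_self _), T.ch_ag r m⟩,
    fun b hb => hk b (T.mono _ _ _ _ (le_max_left _ _) hb)⟩

variable (T)

/-- conjugation by the points of `r` is uniformly small for the level of `t` -/
def Small (r t : T.X × ℕ) : Prop :=
  ∃ l, ∀ z, T.In r z → ∀ u ∈ B.U l, T.f z * u * (T.f z)⁻¹ ∈ B.U (T.lev t)

/-- the successors are concentrated on the right -/
def TypeP (r : T.X × ℕ) : Prop :=
  ∀ K, ∃ e : G, ∀ᶠ m in (𝒰 : Filter ℕ), T.c r m * e⁻¹ ∈ B.U K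

/-- products of successors are concentrated on the right -/
def Bp (r t : T.X × ℕ) : Prop :=
  ∀ K, ∀ᶠ M in (𝒰 : Filter ℕ), ∃ e : G, ∀ᶠ m in (𝒰 : Filter ℕ), T.c t M * T.c r m * e⁻¹ ∈ B.U K

variable {T}

theorem small_ext (r t : T.X × ℕ) : ∃ r', T.Le r r' ∧ T.Small r' t := by
  obtain ⟨k, hk⟩ := near r.1 1 (T.f r.1)⁻¹ (by simp) (T.lev t + 2)
  obtain ⟨l, hl⟩ := B.conj (T.f r.1) (T.lev t + 2)
  refine ⟨(r.1, max k r.2), ⟨le_max_right _ _, T.refl _ _⟩, l, fun z hz u hu => ?_⟩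
  have h1 := hk z (T.mono _ _ _ _ (le_max_left _ _) hz)
  have := B.mul3 h1 (hl u hu) (B.inv _ _ h1)
  simpa [mul_assoc] using this

omit [IsTopologicalGroup G] in
theorem Small.mono {r r' t : T.X × ℕ} (h : T.Small r t) (h' : T.Le r r') : T.Small r' t := by
  obtain ⟨l, hl⟩ := h
  exact ⟨l, fun z hz => hl z (h'.mem hz)⟩

theorem TypeP.bp {r : T.X × ℕ} (h : T.TypeP r) (t : T.X × ℕ) : T.Bp r t := by
  intro K
  refine Eventually.of_forall fun M => ?_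
  obtain ⟨l, hl⟩ := B.conj (T.c t M) K
  obtain ⟨e, he⟩ := h l
  refine ⟨T.c t M * e, ?_⟩
  filter_upwards [he] with m hm
  simpa [mul_assoc] using hl _ hm

end Tr

end

end Pool.Agent.H.MP_913206_gt
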