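import Pool.Agent.H.MP_913206_gt.A

/-!
The two strategies: words in three letters and words in two inverse letters.
-/

namespace Pool.Agent.H.MP_913206_gt

open Filter Topology

universe u

variable {G : Type u} [Group G] [TopologicalSpace G] {B : Base G} {T : Tr B}

theorem not_ev {p : ℕ → Prop} (h : ¬∀ᶠ m in (𝒰 : Filter ℕ), ¬p m) :
    ∀ᶠ m in (𝒰 : Filter ℕ), p m := by
  rw [Ultrafilter.eventually_not, not_not] at h
  exact h

theorem not_ev' {p : ℕ → Prop} (h : ¬∀ᶠ m in (𝒰 : Filter ℕ), p m) :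
    ∀ᶠ m in (𝒰 : Filter ℕ), ¬p m := Ultrafilter.eventually_not.2 h

namespace Tr

/-- generic products of three successors, the middle one fixed -/
noncomputable def G2 (T : Tr B) (s t r : T.X × ℕ) (M : ℕ) : Filter G :=
  (𝒰 : Filter ℕ).bind fun m => (𝒰 : Filter ℕ).map fun N => T.c s N * T.c t M * T.c r m

/-- generic products of three successors -/
noncomputable def G3 (T : Tr B) (s t r : T.X × ℕ) : Filter G := (𝒰 : Filter ℕ).bind (T.G2 s t r)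

theorem ev_G2 {s t r : T.X × ℕ} {M : ℕ} {p : G → Prop} : (∀ᶠ g in T.G2 s t r M, p g) ↔
    ∀ᶠ m in (𝒰 : Filter ℕ), ∀ᶠ N in (𝒰 : Filter ℕ), p (T.c s N * T.c t M * T.c r m) := by
  simp only [G2, eventually_bind, eventually_map]

theorem ev_G3 {s t r : T.X × ℕ} {p : G → Prop} : (∀ᶠ g in T.G3 s t r, p g) ↔
    ∀ᶠ M in (𝒰 : Filter ℕ), ∀ᶠ g in T.G2 s t r M, p g := by
  simp only [G3, eventually_bind]

theorem escB2 (s t r : T.X × ℕ) (M : ℕ) : B.Esc (T.G2 s t r M) (T.lev r + 1) := by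
  intro e
  rw [ev_G2]
  by_contra h
  have h1 : ∀ᶠ m in (𝒰 : Filter ℕ), ∀ᶠ N in (𝒰 : Filter ℕ),
      e⁻¹ * (T.c s N * T.c t M * T.c r m) ∈ B.U (T.lev r + 1) :=
    (not_ev' h).mono fun m hm => not_ev hm
  obtain ⟨m0, h0⟩ := h1.exists
  obtain ⟨m, hm, hm'⟩ := (h1.and (T.esc r (T.c r m0))).exists
  obtain ⟨N, hN, hN'⟩ := (h0.and hm).exists
  apply hm'
  have := B.div hN hN'
  simpa [mul_assoc, c] using this

theorem escB1 (s t r : T.X × ℕ) {l : ℕ}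
    (hl : ∀ z, T.In r z → ∀ u ∈ B.U l, T.f z * u * (T.f z)⁻¹ ∈ B.U (T.lev t)) :
    B.Esc (T.G3 s t r) (l + 1) := by
  intro e
  rw [ev_G3]
  simp only [ev_G2]
  by_contra h
  have h1 : ∀ᶠ M in (𝒰 : Filter ℕ), ∀ᶠ m in (𝒰 : Filter ℕ), ∀ᶠ N in (𝒰 : Filter ℕ),
      e⁻¹ * (T.c s N * T.c t M * T.c r m) ∈ B.U (l + 1) :=
    (not_ev' h).mono fun M hM => (not_ev' hM).mono fun m hm => not_ev hm
  obtain ⟨M0, h0⟩ := h1.exists
  obtain ⟨M, hM, hM'⟩ := (h1.and (T.esc t (T.c t M0))).exists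
  obtain ⟨m, hm, hm'⟩ := (h0.and hM).exists
  obtain ⟨N, hN, hN'⟩ := (hm.and hm').exists
  apply hM'
  have := hl _ (in_ch r m) _ (B.div hN hN')
  simpa [mul_assoc, c] using this

variable [IsTopologicalGroup G]

theorem stratB (hB : ∀ t r : T.X × ℕ, ∃ t' r', T.Le t t' ∧ T.Le r r' ∧ T.Small r' t' ∧ T.Bp r' t') :
    ∃ lo, ∀ F : ℕ → Finset G, ∃ g, ∀ i, lo ≤ i → ∀ f ∈ F i, f⁻¹ * g ∉ B.U (i + 1) := by
  let S := {p : (T.X × ℕ) × (T.X × ℕ) × (T.X × ℕ) // T.Small p.2.2 p.2.1 ∧ T.Bp p.2.2 p.2.1}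
  obtain ⟨t0, r0, -, -, hs0, hb0⟩ := hB (T.pt, 0) (T.pt, 0)
  obtain ⟨v0, hv0⟩ : ∃ v, B.Esc (T.G3 (T.pt, 0) t0 r0) v := by
    obtain ⟨l, hl⟩ := hs0
    exact ⟨_, escB1 _ _ _ hl⟩
  refine ⟨v0, fun F => ?_⟩
  refine B.final (S := S)
    (fun σ => {g | ∃ x y z, T.In σ.1.1 x ∧ T.In σ.1.2.1 y ∧ T.In σ.1.2.2 z ∧
      g = T.f x * T.f y * T.f z})
    (fun σ σ' => T.Lt σ.1.1 σ'.1.1 ∧ T.Lt σ.1.2.1 σ'.1.2.1 ∧ T.Lt σ.1.2.2 σ'.1.2.2)
    (fun σ => T.G3 σ.1.1 σ.1.2.1 σ.1.2.2) F ?_ ?_ ⟨((T.pt, 0), t0, r0), hs0, hb0⟩ v0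
    (fun K => hv0.av F K)
  · intro σ h
    obtain ⟨x, hx⟩ := lim' (fun k => (σ k).1.1) (fun k => (h k).1)
    obtain ⟨y, hy⟩ := lim' (fun k => (σ k).1.2.1) (fun k => (h k).2.1)
    obtain ⟨z, hz⟩ := lim' (fun k => (σ k).1.2.2) (fun k => (h k).2.2)
    exact ⟨T.f x * T.f y * T.f z, fun k => ⟨x, y, z, hx k, hy k, hz k, rfl⟩⟩
  · rintro ⟨⟨s, t, r⟩, hs, hb⟩ lo hlo
    simp only at hs hb hlo
    have h1 := hlo (T.lev r + 1)
    rw [ev_G3] at h1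
    obtain ⟨M, hM, e, he⟩ := (h1.and (hb (T.lev s + 2))).exists
    obtain ⟨n0, hn0⟩ := B.conj e (T.lev s + 2)
    obtain ⟨n, hn1, hn2⟩ : ∃ n, lo ≤ n ∧ n0 ≤ n := ⟨max lo n0, le_max_left _ _, le_max_right _ _⟩
    have h2 := hM.and ((escB2 s t r M).av F n)
    rw [ev_G2] at h2
    obtain ⟨m, hm, hm'⟩ := (h2.and he).exists
    obtain ⟨t1, ht1, ht1'⟩ := near_ch t M ((T.c r m)⁻¹ * (T.c t M)⁻¹) (T.c r m) (by simp) (n + 3)
    obtain ⟨r1, hr1, hr1'⟩ := near_ch r m (T.c r m)⁻¹ 1 (by simp) (n + 3)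
    obtain ⟨t', r', ht', hr', hs', hb'⟩ := hB t1 r1
    have hx : ∀ N, ∃ s', T.Lt s s' ∧ ∀ b, T.In s' b →
        ((T.c t M * T.c r m)⁻¹ * (T.c s N)⁻¹) * T.f b * (T.c t M * T.c r m) ∈ B.U (n + 3) :=
      fun N => near_ch s N _ _ (by simp [mul_assoc]) _
    choose s' hs1 hs2 using hx
    have close : ∀ N x y z, T.In (s' N) x → T.In t' y → T.In r' z →
        (T.c s N * T.c t M * T.c r m)⁻¹ * (T.f x * T.f y * T.f z) ∈ B.U (n + 1) := by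
      intro N x y z hx hy hz
      have := B.mul3 (hs2 N x hx) (ht1' y (ht'.mem hy)) (hr1' z (hr'.mem hz))
      simpa [mul_assoc] using this
    have e3 : ∀ e' : G, ∀ᶠ N in (𝒰 : Filter ℕ),
        e'⁻¹ * (T.c s N * T.c t M * T.c r m) ∉ B.U n := by
      intro e'
      filter_upwards [T.esc s (e' * (T.c t M * T.c r m)⁻¹)] with N hN hN'
      apply hN
      have := B.mul3 hm' (hn0 _ (B.anti hn2 hN')) (B.inv _ _ hm')
      simpa [mul_assoc, c] using this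
    have e4 := B.esc_bind e3 (fun N => T.G3 (s' N) t' r') (fun N => by
      rw [ev_G3]
      refine Eventually.of_forall fun M2 => ?_
      rw [ev_G2]
      exact Eventually.of_forall fun m2 => Eventually.of_forall fun N2 =>
        close N _ _ _ (in_ch _ _) (in_ch _ _) (in_ch _ _))
    obtain ⟨l, hl⟩ := hs'
    have e5 := e4.av F (l + 1)
    rw [eventually_bind] at e5
    obtain ⟨N, hN, hN'⟩ := (hm.and e5).exists
    refine ⟨n, ⟨(s' N, t', r'), ⟨l, hl⟩, hb'⟩, T.c s N * T.c t M * T.c r m, hn1,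
      ⟨hs1 N, ht1.trans_le ht', hr1.trans_le hr'⟩, hN.1.trans hN.2, ?_, fun K => ?_⟩
    · rintro g ⟨x, y, z, hx, hy, hz, rfl⟩
      exact close N x y z hx hy hz
    · exact (hN'.and ((escB1 (s' N) t' r' hl).av F K)).mono fun g hg => hg.1.trans hg.2

/-- generic products of two inverted successors -/
noncomputable def GA (T : Tr B) (r t : T.X × ℕ) : Filter G :=
  (𝒰 : Filter ℕ).bind fun M => (𝒰 : Filter ℕ).map fun m => (T.c r m)⁻¹ * (T.c t M)⁻¹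

omit [IsTopologicalGroup G] in
theorem ev_GA {r t : T.X × ℕ} {p : G → Prop} : (∀ᶠ g in T.GA r t, p g) ↔
    ∀ᶠ M in (𝒰 : Filter ℕ), ∀ᶠ m in (𝒰 : Filter ℕ), p ((T.c r m)⁻¹ * (T.c t M)⁻¹) := by
  simp only [GA, eventually_bind, eventually_map]

omit [IsTopologicalGroup G] in
theorem escA1 (t : T.X × ℕ) (h : ¬T.TypeP t) : ∃ v, ∀ r, B.Esc (T.GA r t) v := by
  obtain ⟨K, hK⟩ := not_forall.1 h
  refine ⟨K + 1, fun r e => ?_⟩
  rw [ev_GA]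
  by_contra h
  have h1 : ∀ᶠ M in (𝒰 : Filter ℕ), ∀ᶠ m in (𝒰 : Filter ℕ),
      e⁻¹ * ((T.c r m)⁻¹ * (T.c t M)⁻¹) ∈ B.U (K + 1) :=
    (not_ev' h).mono fun M hM => not_ev hM
  obtain ⟨M0, h0⟩ := h1.exists
  refine hK ⟨T.c t M0, ?_⟩
  filter_upwards [h1] with M hM
  obtain ⟨m, hm, hm'⟩ := (hM.and h0).exists
  have := B.div hm hm'
  simpa [mul_assoc] using this

theorem stratA (t0 r0 : T.X × ℕ) (hP : ∀ t, T.Le t0 t → ¬T.TypeP t)
    (hA : ∀ t r, T.Le t0 t → T.Le r0 r → T.Small r t → ¬T.Bp r t) :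
    ∃ lo, ∀ F : ℕ → Finset G, ∃ g, ∀ i, lo ≤ i → ∀ f ∈ F i, f⁻¹ * g ∉ B.U (i + 1) := by
  let S := {p : (T.X × ℕ) × (T.X × ℕ) // T.Le r0 p.1 ∧ T.Le t0 p.2 ∧ T.Small p.1 p.2}
  obtain ⟨r1, hr1, hs1⟩ := small_ext r0 t0
  obtain ⟨v0, hv0⟩ := escA1 t0 (hP t0 (Le.rfl _))
  refine ⟨v0, fun F => ?_⟩
  refine B.final (S := S)
    (fun σ => {g | ∃ z y, T.In σ.1.1 z ∧ T.In σ.1.2 y ∧ g = (T.f z)⁻¹ * (T.f y)⁻¹})
    (fun σ σ' => T.Lt σ.1.1 σ'.1.1 ∧ T.Lt σ.1.2 σ'.1.2)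
    (fun σ => T.GA σ.1.1 σ.1.2) F ?_ ?_ ⟨(r1, t0), hr1, Le.rfl _, hs1⟩ v0
    (fun K => (hv0 r1).av F K)
  · intro σ h
    obtain ⟨z, hz⟩ := lim' (fun k => (σ k).1.1) (fun k => (h k).1)
    obtain ⟨y, hy⟩ := lim' (fun k => (σ k).1.2) (fun k => (h k).2)
    exact ⟨(T.f z)⁻¹ * (T.f y)⁻¹, fun k => ⟨z, y, hz k, hy k, rfl⟩⟩
  · rintro ⟨⟨r, t⟩, hr, ht, hs⟩ lo hlo
    simp only at hr ht hs hlo
    obtain ⟨K, hK⟩ := not_forall.1 (hA t r ht hr hs)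
    obtain ⟨n, hn1, hn2⟩ : ∃ n, lo ≤ n ∧ K ≤ n := ⟨max lo K, le_max_left _ _, le_max_right _ _⟩
    have h1 := hlo n
    rw [ev_GA] at h1
    obtain ⟨M, hM, he⟩ := (h1.and (not_ev' hK)).exists
    obtain ⟨t', ht1, ht1'⟩ := near_ch t M 1 (T.c t M)⁻¹ (by simp) (n + 2)
    have hz : ∀ m, ∃ r', T.Lt r r' ∧ T.Small r' t' ∧ ∀ b, T.In r' b →
        T.c t M * T.f b * ((T.c r m)⁻¹ * (T.c t M)⁻¹) ∈ B.U (n + 2) := by
      intro m
      obtain ⟨r2, h2, h2'⟩ := near_ch r m (T.c t M) ((T.c r m)⁻¹ * (T.c t M)⁻¹) (by simp) (n + 2)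
      obtain ⟨r3, h3, h3'⟩ := small_ext r2 t'
      exact ⟨r3, h2.trans_le h3, h3', fun b hb => h2' b (h3.mem hb)⟩
    choose r' hr1 hr2 hr3 using hz
    have close : ∀ m z y, T.In (r' m) z → T.In t' y →
        ((T.c r m)⁻¹ * (T.c t M)⁻¹)⁻¹ * ((T.f z)⁻¹ * (T.f y)⁻¹) ∈ B.U (n + 1) := by
      intro m z y hz hy
      have := B.mul _ _ _ (B.inv _ _ (hr3 m z hz)) (B.inv _ _ (ht1' y hy))
      simpa [mul_assoc] using this
    have e3 : ∀ e' : G, ∀ᶠ m in (𝒰 : Filter ℕ),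
        e'⁻¹ * ((T.c r m)⁻¹ * (T.c t M)⁻¹) ∉ B.U n := by
      intro e'
      have := not_ev' (fun h => he ⟨e'⁻¹, h⟩)
      filter_upwards [this] with m hm hm'
      apply hm
      have := B.inv _ _ (B.anti hn2 hm')
      simpa [mul_assoc] using this
    have e4 := B.esc_bind e3 (fun m => T.GA (r' m) t') (fun m => by
      rw [ev_GA]
      exact Eventually.of_forall fun M2 => Eventually.of_forall fun m2 =>
        close m _ _ (in_ch _ _) (in_ch _ _))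
    obtain ⟨v, hv⟩ := escA1 t' (hP t' (ht.trans ht1.le))
    have e5 := e4.av F v
    rw [eventually_bind] at e5
    obtain ⟨m, hm, hm'⟩ := (hM.and e5).exists
    refine ⟨n, ⟨(r' m, t'), hr.trans (hr1 m).le, ht.trans ht1.le, hr2 m⟩,
      (T.c r m)⁻¹ * (T.c t M)⁻¹, hn1, ⟨hr1 m, ht1⟩, hm, ?_, fun K' => ?_⟩
    · rintro g ⟨z, y, hz, hy, rfl⟩
      exact close m z y hz hy
    · exact (hm'.and ((hv (r' m)).av F K')).mono fun g hg => hg.1.trans hg.2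

/-- the subtree below a node -/
def sub (T : Tr B) (p : T.X × ℕ) : Tr B where
  X := {b : T.X // T.In p b}
  f b := T.f b.1
  ag n a b := T.ag (max n p.2) a.1 b.1
  refl n a := T.refl _ _
  trans n a b c := T.trans _ _ _ _
  mono m n a b h := T.mono _ _ _ _ (max_le_max h le_rfl)
  cont a V hV := by
    obtain ⟨n, hn⟩ := T.cont a.1 V hV
    exact ⟨n, fun b hb => hn _ (T.mono _ _ _ _ (le_max_left _ _) hb)⟩
  lim a n h1 h2 := by
    obtain ⟨b, hb⟩ := T.lim (fun k => (a (k + p.2)).1) (fun k => n (k + p.2))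
      (fun k => by rw [Nat.add_right_comm]; exact h1 _)
      (fun k => by
        rw [Nat.add_right_comm]; exact T.mono _ _ _ _ (le_max_left _ _) (h2 _))
    have hmono : StrictMono n := strictMono_nat_of_lt_succ h1
    have hge : ∀ k, p.2 ≤ n (k + p.2) := fun k => (Nat.le_add_left _ _).trans hmono.le_apply
    have chain : ∀ k j, T.ag (max (n k) p.2) (a k).1 (a (k + j)).1 := by
      intro k j
      induction j with
      | zero => exact T.refl _ _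
      | succ j ih =>
        exact T.trans _ _ _ _ ih (T.mono _ _ _ _
          (max_le_max (hmono.monotone (Nat.le_add_right _ _)) le_rfl) (h2 (k + j)))
    have key : ∀ k, T.ag (max (n k) p.2) (a k).1 b := fun k =>
      T.trans _ _ _ _ (chain k p.2) (T.mono _ _ _ _
        (max_le (hmono.monotone (Nat.le_add_right _ _)) (hge k)) (hb k))
    exact ⟨⟨b, T.trans _ _ _ _ (a 0).2 (T.mono _ _ _ _ (le_max_right _ _) (key 0))⟩, key⟩
  ch q m := ⟨T.ch (q.1.1, max q.2 p.2) m,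
    T.trans _ _ _ _ q.1.2 (T.mono _ _ _ _ (le_max_right _ _) (T.ch_ag (q.1.1, max q.2 p.2) m))⟩
  ch_ag q m := T.ch_ag (q.1.1, max q.2 p.2) m
  lev q := T.lev (q.1.1, max q.2 p.2)
  esc q e := T.esc (q.1.1, max q.2 p.2) e
  pt := ⟨p.1, T.refl _ _⟩

theorem not_menger (T : Tr B) :
    ∃ lo, ∀ F : ℕ → Finset G, ∃ g, ∀ i, lo ≤ i → ∀ f ∈ F i, f⁻¹ * g ∉ B.U (i + 1) := by
  by_cases h : ∀ p : T.X × ℕ, ∃ q, T.Le p q ∧ T.TypeP q
  · refine stratB (T := T) fun t r => ?_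
    obtain ⟨r1, h1, h1'⟩ := small_ext r t
    obtain ⟨r2, h2, h2'⟩ := h r1
    exact ⟨t, r2, Le.rfl _, h1.trans h2, h1'.mono h2, h2'.bp t⟩
  · obtain ⟨p, hp⟩ := not_forall.1 h
    have hP : ∀ q : (T.sub p).X × ℕ, ¬(T.sub p).TypeP q := fun q hq =>
      hp ⟨(q.1.1, max q.2 p.2), ⟨le_max_right _ _, q.1.2⟩, hq⟩
    by_cases hB : ∀ t r : (T.sub p).X × ℕ, ∃ t' r', (T.sub p).Le t t' ∧ (T.sub p).Le r r' ∧
        (T.sub p).Small r' t' ∧ (T.sub p).Bp r' t'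
    · exact stratB hB
    · obtain ⟨t0, h1⟩ := not_forall.1 hB
      obtain ⟨r0, h2⟩ := not_forall.1 h1
      exact stratA t0 r0 (fun t _ => hP t) fun t r ht hr hs hb => h2 ⟨t, r, ht, hr, hs, hb⟩

end Tr

end Pool.Agent.H.MP_913206_gt
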