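import Pool.Agent.H.MP_913206_gt.B

/-!
An analytic group that is not a countable union of totally bounded sets carries a tree.
-/

namespace Pool.Agent.H.MP_913206_gt

open Filter Topology

universe u

variable {G : Type u} [Group G] [TopologicalSpace G] (B : Base G)

/-- totally bounded sets -/
def TB (A : Set G) : Prop := ∀ n, ∃ F : Finset G, ∀ g ∈ A, ∃ f ∈ F, f⁻¹ * g ∈ B.U n

/-- countable unions of totally bounded sets -/
def SB (A : Set G) : Prop := ∃ C : ℕ → Set G, (∀ k, TB B (C k)) ∧ A ⊆ ⋃ k, C k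

variable {B}

theorem SB.mono {A A' : Set G} (h : SB B A) (h' : A' ⊆ A) : SB B A' := by
  obtain ⟨C, h1, h2⟩ := h
  exact ⟨C, h1, h'.trans h2⟩

theorem TB.sb {A : Set G} (h : TB B A) : SB B A :=
  ⟨fun _ => A, fun _ => h, Set.subset_iUnion (fun _ : ℕ => A) 0⟩

theorem tb_empty : TB B (∅ : Set G) := fun _ => ⟨∅, by simp⟩

theorem sb_iUnion {ι : Type} [Countable ι] {A : ι → Set G} (h : ∀ i, SB B (A i)) :
    SB B (⋃ i, A i) := by
  cases isEmpty_or_nonempty ι with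
  | inl _ => simpa using tb_empty.sb
  | inr _ =>
    choose C h1 h2 using h
    obtain ⟨e, he⟩ := exists_surjective_nat (ι × ℕ)
    refine ⟨fun k => C (e k).1 (e k).2, fun k => h1 _ _, fun g hg => ?_⟩
    obtain ⟨i, hi⟩ := Set.mem_iUnion.1 hg
    obtain ⟨k, hk⟩ := Set.mem_iUnion.1 (h2 i hi)
    obtain ⟨j, hj⟩ := he (i, k)
    exact Set.mem_iUnion.2 ⟨j, by rw [hj]; exact hk⟩

theorem SB.union {A A' : Set G} (h : SB B A) (h' : SB B A') : SB B (A ∪ A') := by
  rw [Set.union_eq_iUnion]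
  exact sb_iUnion fun b => by cases b <;> simpa

theorem exists_tr (φ : (ℕ → ℕ) → G) (hφ : Continuous φ) (hs : Function.Surjective φ)
    (h : ¬SB B Set.univ) : Nonempty (Tr B) := by
  classical
  let cyl : (ℕ → ℕ) → ℕ → Set (ℕ → ℕ) := fun a n => {b | ∀ i < n, a i = b i}
  let Live : (ℕ → ℕ) → Prop := fun a => ∀ n, ¬SB B (φ '' cyl a n)
  let cs : (Σ n : ℕ, Fin n → ℕ) → Set (ℕ → ℕ) := fun p => {b | ∀ i : Fin p.1, p.2 i = b i}
  let D : Set G := ⋃ p : {p : Σ n : ℕ, Fin n → ℕ // SB B (φ '' cs p)}, φ '' cs p.1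
  have hD : SB B D := sb_iUnion fun p => p.2
  have dead : ∀ a, ¬Live a → φ a ∈ D := by
    intro a ha
    obtain ⟨n, hn⟩ := not_forall.1 ha
    have e : cs ⟨n, fun i => a i⟩ = cyl a n := by
      ext b
      exact ⟨fun h i hi => h ⟨i, hi⟩, fun h i => h i i.2⟩
    exact Set.mem_iUnion.2 ⟨⟨⟨n, fun i => a i⟩, by rw [e]; exact not_not.1 hn⟩,
      Set.mem_image_of_mem _ (fun i => rfl)⟩
  have ex : ∃ a, Live a := by
    by_contra hn
    refine h (hD.mono fun g _ => ?_)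
    obtain ⟨a, rfl⟩ := hs g
    exact dead a fun ha => hn ⟨a, ha⟩
  have kids : ∀ p : {a // Live a} × ℕ, ∃ (l : ℕ) (c : ℕ → {a // Live a}),
      (∀ m, (c m).1 ∈ cyl p.1.1 p.2) ∧
      ∀ e : G, ∀ᶠ m in (𝒰 : Filter ℕ), e⁻¹ * φ (c m).1 ∉ B.U l := by
    rintro ⟨⟨a, ha⟩, n⟩
    have h1 : ¬TB B (φ '' {b | b ∈ cyl a n ∧ Live b}) := by
      intro htb
      refine ha n ((hD.union htb.sb).mono ?_)
      rintro _ ⟨b, hb, rfl⟩
      by_cases hl : Live b
      · exact Or.inr ⟨b, ⟨hb, hl⟩, rfl⟩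
      · exact Or.inl (dead b hl)
    obtain ⟨l, hl⟩ := not_forall.1 h1
    obtain ⟨c, hc1, hc2⟩ := exists_seq_of_forall_finset_exists
      (fun b => b ∈ cyl a n ∧ Live b) (fun b b' => (φ b)⁻¹ * φ b' ∉ B.U l) (fun s _ => by
        by_contra hn
        refine hl ⟨s.image φ, ?_⟩
        rintro _ ⟨b, hb, rfl⟩
        by_contra hn'
        refine hn ⟨b, hb, fun x hx hm => hn' ⟨φ x, Finset.mem_image_of_mem _ hx, hm⟩⟩)
    refine ⟨l + 1, fun m => ⟨c m, (hc1 m).2⟩, fun m => (hc1 m).1, fun e => ?_⟩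
    have hfin : {m | e⁻¹ * φ (c m) ∈ B.U (l + 1)}.Finite := by
      apply Set.Subsingleton.finite
      intro m hm m' hm'
      by_contra hne
      rcases lt_or_gt_of_ne hne with hlt | hlt
      · exact hc2 _ _ hlt (B.div hm hm')
      · exact hc2 _ _ hlt (B.div hm' hm)
    exact hfin.compl_mem_hyperfilter
  choose lev ch h1 h2 using kids
  obtain ⟨a0, ha0⟩ := ex
  refine ⟨⟨{a // Live a}, fun a => φ a.1, fun n a b => b.1 ∈ cyl a.1 n, fun n a i _ => rfl,
    fun n a b c h h' i hi => (h i hi).trans (h' i hi), fun m n a b hmn h i hi => h i (hi.trans_le hmn),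
    fun a V hV => ?_, fun a n h1 h2 => ?_, ch, h1, lev, h2, ⟨a0, ha0⟩⟩⟩
  · have := hφ.continuousAt.preimage_mem_nhds hV
    rw [nhds_pi, Filter.mem_pi] at this
    obtain ⟨I, hI, t, ht, hsub⟩ := this
    obtain ⟨n, hn⟩ := hI.bddAbove
    refine ⟨n + 1, fun b hb => hsub fun i hi => ?_⟩
    rw [← hb i (Nat.lt_succ_of_le (hn hi))]
    exact mem_of_mem_nhds (ht i)
  · have hmono : StrictMono n := strictMono_nat_of_lt_succ h1
    have chain : ∀ k j, ∀ i < n k, (a k).1 i = (a (k + j)).1 i := by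
      intro k j
      induction j with
      | zero => intro i _; rfl
      | succ j ih =>
        intro i hi
        exact (ih i hi).trans (h2 (k + j) i (hi.trans_le (hmono.monotone (Nat.le_add_right _ _))))
    have key : ∀ k, ∀ i < n k, (a k).1 i = (a (i + 1)).1 i := by
      intro k i hi
      have e1 := chain k (i + 1) i hi
      have e2 := chain (i + 1) k i ((Nat.lt_succ_self i).trans_le hmono.le_apply)
      rw [e1, e2, Nat.add_comm]
    refine ⟨⟨fun i => (a (i + 1)).1 i, fun m => ?_⟩, fun k i hi => key k i hi⟩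
    have e : cyl (fun i => (a (i + 1)).1 i) m = cyl (a m).1 m := by
      ext b
      have hm : m ≤ n m := hmono.le_apply
      exact ⟨fun h i hi => (key m i (hi.trans_le hm)).trans (h i hi),
        fun h i hi => (key m i (hi.trans_le hm)).symm.trans (h i hi)⟩
    rw [e]
    exact (a m).2 m

/-- the main theorem: an analytic group bounded in the sense of Menger is a countable union of
totally bounded sets -/
theorem sb_of_menger [IsTopologicalGroup G] (φ : (ℕ → ℕ) → G) (hφ : Continuous φ)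
    (hs : Function.Surjective φ)
    (hM : ∀ V : ℕ → Set G, (∀ n, IsOpen (V n) ∧ 1 ∈ V n ∧ V n ≠ Set.univ) →
      ∃ F : ℕ → Finset G, ∀ g, ∃ n, ∃ f ∈ F n, f⁻¹ * g ∈ V n) : SB B Set.univ := by
  by_contra h
  obtain ⟨T⟩ := exists_tr φ hφ hs h
  obtain ⟨lo, hlo⟩ := T.not_menger
  have hne : ∀ i, lo ≤ i → B.U (i + 1) ≠ Set.univ := by
    intro i hi e
    obtain ⟨g, hg⟩ := hlo fun _ => {1}
    exact hg i hi 1 (Finset.mem_singleton_self _) (by rw [e]; trivial)
  obtain ⟨F, hF⟩ := hM (fun n => B.U (lo + n + 1))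
    fun n => ⟨B.opn _, B.one _, hne _ (Nat.le_add_right _ _)⟩
  obtain ⟨g, hg⟩ := hlo fun i => F (i - lo)
  obtain ⟨n, f, hf, hm⟩ := hF g
  exact hg (lo + n) (Nat.le_add_right _ _) f (by simpa using hf) hm

theorem SB.hurewicz (h : SB B Set.univ) (V : ℕ → Set G) (hV : ∀ n, V n ∈ 𝓝 (1 : G)) :
    ∃ F : ℕ → Finset G, ∀ g, ∃ k, ∀ n, k ≤ n → ∃ f ∈ F n, f⁻¹ * g ∈ V n := by
  classical
  obtain ⟨C, h1, h2⟩ := h
  choose E hE using h1
  choose l hl using fun n => B.sub _ (hV n)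
  refine ⟨fun n => (Finset.range (n + 1)).biUnion fun k => E k (l n), fun g => ?_⟩
  obtain ⟨k, hk⟩ := Set.mem_iUnion.1 (h2 (Set.mem_univ g))
  refine ⟨k, fun n hn => ?_⟩
  obtain ⟨f, hf, hm⟩ := hE k (l n) g hk
  exact ⟨f, Finset.mem_biUnion.2 ⟨k, Finset.mem_range.2 (Nat.lt_succ_of_le hn), hf⟩, hl n hm⟩

end Pool.Agent.H.MP_913206_gt
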